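import Pool.Agent.H629.CG.Stm

/-! Project CG of helper629 (MP_e22585_pr), part NEG: all negative moments. -/

set_option autoImplicit false

namespace Pool.Agent.H719.CG.NEG

open MeasureTheory ProbabilityTheory Filter Topology Set Pool.Agent.H629.CG
open scoped ENNReal NNReal

lemma rpow_bound {t s0 : ℝ} (ht : 0 ≤ t) (hts : t ≤ s0) (x : ℝ≥0∞) :
    x ^ (-t) ≤ 1 + x ^ (-s0) := by
  rcases le_total x 1 with hx | hx
  · exact (ENNReal.rpow_le_rpow_of_exponent_ge hx (by linarith)).trans le_add_self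
  · refine le_trans ?_ le_self_add
    rw [ENNReal.rpow_neg, ENNReal.inv_le_one]
    simpa using ENNReal.rpow_le_rpow hx ht

lemma meas_mas {Ω : Type} [MeasurableSpace Ω] (A : Set ℝ) {X : ℝ → Ω → ℝ}
    (hX : Measurable (Function.uncurry X)) : Measurable (mas A X) := by
  unfold mas
  have h1 : Measurable (fun p : Ω × ℝ => ENNReal.ofReal (Real.exp (X p.2 p.1))) := by
    have h2 : Measurable (fun p : Ω × ℝ => X p.2 p.1) := hX.comp measurable_swap
    exact (Real.measurable_exp.comp h2).ennreal_ofReal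
  exact h1.lintegral_prod_right'

lemma mom_le {Ω : Type} [MeasurableSpace Ω] {P : Measure Ω} [IsProbabilityMeasure P]
    (A : Set ℝ) (X : ℝ → Ω → ℝ) {t s0 : ℝ} (ht : 0 ≤ t) (hts : t ≤ s0) {C : ℝ≥0∞}
    (h : mom P A X (-s0) ≤ C) : ∫⁻ ω, (mas A X ω) ^ (-t) ∂P ≤ 1 + C := by
  calc ∫⁻ ω, (mas A X ω) ^ (-t) ∂P ≤ ∫⁻ ω, (1 + (mas A X ω) ^ (-s0)) ∂P :=
        lintegral_mono fun ω => rpow_bound ht hts _
    _ = 1 + ∫⁻ ω, (mas A X ω) ^ (-s0) ∂P := by
        rw [lintegral_add_left measurable_const, lintegral_const, measure_univ, mul_one]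
    _ ≤ 1 + C := by gcongr; exact h

lemma mom_anti {Ω : Type} [MeasurableSpace Ω] {P : Measure Ω} {A B : Set ℝ} (X : ℝ → Ω → ℝ)
    (h : A ⊆ B) {s : ℝ} (hs : 0 < s) : mom P B X (-s) ≤ mom P A X (-s) := by
  unfold mom
  apply lintegral_mono
  intro ω
  simp only
  rw [ENNReal.rpow_neg, ENNReal.rpow_neg, ENNReal.inv_le_inv]
  exact ENNReal.rpow_le_rpow (lintegral_mono_set h) hs.le

lemma ex_ne_top (x : ℝ) : ex x ≠ ∞ := ENNReal.ofReal_ne_top

theorem t_NEG : S_JEN → S_GEO → S_SUMG → S_R2 → S_CMP → S_NEG0 → S_NEG := by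
  intro hJ hG hS hR hC hN μ r ε₀ Ω _ P X hμ hμ2 hr hε₀ hε₀' hF s hs
  obtain ⟨s0, hs0, C0, hC0, hN⟩ := hN μ r ε₀ Ω P X hμ hμ2 hr hε₀ hε₀' hF
  obtain ⟨C1, hC1, hC⟩ := hC μ r hμ hr 1 one_pos
  obtain ⟨m, hm⟩ := exists_nat_ge (s / s0 + 1)
  have hm1 : 1 ≤ (m : ℝ) := by
    have : 0 ≤ s / s0 := by positivity
    linarith
  have hm0 : 0 < m := by
    by_contra h
    have : m = 0 := by omega
    rw [this] at hm1
    norm_num at hm1
  have hmr : (0 : ℝ) < m := by exact_mod_cast hm0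
  have hsm : s / m ≤ s0 := by
    rw [div_le_iff₀ hmr]
    have h1 : s / s0 ≤ m := by linarith
    rw [div_le_iff₀ hs0] at h1
    linarith
  obtain ⟨V, hV⟩ := (hR r hr).2.2 (ε₀ / (2 * m)) (by positivity)
  have hvol : volume Hf = ENNReal.ofReal (1 / 2) := by
    unfold Hf
    rw [Real.volume_Ico, sub_zero]
  have hv0 : 0 < volume Hf := by
    rw [hvol, ENNReal.ofReal_pos]; norm_num
  have hvt : volume Hf ≠ ∞ := by rw [hvol]; exact ENNReal.ofReal_ne_top
  set K1 : ℝ≥0∞ := ex (((-s) ^ 2 - (-s)) / 2 * (μ * (1 + 1) * Real.log (2 * m) + C1)) *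
    ENNReal.ofReal (2 * m) ^ (-(-s)) * (1 + C0) ^ m with hK1
  set K2 : ℝ≥0∞ := (volume Hf) ^ (-s) * ex (((-s) ^ 2 - (-s)) / 2 * (μ * V)) with hK2
  refine ⟨K1 + K2, ?_, ?_⟩
  · apply ENNReal.add_ne_top.mpr
    constructor
    · apply ENNReal.mul_ne_top
      · apply ENNReal.mul_ne_top (ex_ne_top _)
        exact ENNReal.rpow_ne_top_of_nonneg (by linarith) ENNReal.ofReal_ne_top
      · exact ENNReal.pow_ne_top (ENNReal.add_ne_top.mpr ⟨ENNReal.one_ne_top, hC0⟩)
    · apply ENNReal.mul_ne_top _ (ex_ne_top _)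
      rw [ENNReal.rpow_neg]
      apply ENNReal.inv_ne_top.mpr
      exact (ENNReal.rpow_pos hv0 hvt).ne'
  · intro ε hε
    have := hF.prob ε hε
    rcases lt_or_ge (2 * m * ε) ε₀ with hlt | hge
    · refine le_trans ?_ le_self_add
      have hε2 : 2 * m * ε ∈ Ioo 0 ε₀ := ⟨mul_pos (by positivity) hε.1, hlt⟩
      have := hF.prob _ hε2
      have hg := (hG m hm0).1 0 (by norm_num)
      refine (mom_anti (X ε) hg.2.1 hs).trans ?_
      refine (hC ε₀ Ω P X hε₀ hε₀' hF m hm0 ε hε.1 hlt 0 (by norm_num) (-s)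
        (Or.inr (by linarith))).trans ?_
      rw [hK1]
      refine mul_le_mul' le_rfl ?_
      refine (hS _ (P (2 * m * ε)) (mas Hf (X (2 * m * ε)))
        (meas_mas Hf (hF.lnf _ hε2).meas) m hm0 s hs).trans ?_
      apply pow_le_pow_left'
      exact mom_le Hf (X (2 * m * ε)) (by positivity) hsm (hN _ hε2)
    · refine le_trans ?_ le_add_self
      have h1 := (hJ (Ω ε) (P ε) Hf (X ε) (fun s t => μ * rho r ε |s - t|) measurableSet_Ico
        hv0 hvt (hF.lnf ε hε) (-s)).1 (μ * V) ?_ (Or.inr (by linarith))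
      · exact h1
      · intro t _
        simp only [sub_self, abs_zero]
        apply mul_le_mul_of_nonneg_left _ hμ.le
        apply hV ε 0 _ (hε.2.le.trans hε₀') le_rfl (by norm_num)
        rw [div_le_iff₀ (by positivity)]
        linarith

end Pool.Agent.H719.CG.NEG

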